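import Pool.Agent.Helper83K9.HD.Main
import Pool.Agent.Helper83K9.HD.Lc
import Pool.Agent.Helper83K9.HD.Mr
import Pool.Agent.Helper83K9.HD.Sh
import Pool.Agent.Helper83K9.HD.Ton
import Pool.Agent.Helper83K9.HD.Av1
import Pool.Agent.Helper83K9.HD.Av2
import Pool.Agent.Helper83K9.HD.Hb
import Pool.Agent.Helper83K9.HD.Pl

/-!
MP_8daebb_an: stationary varifolds, a lack of constant density near a point forces nearly flat
interface points at which both phases have almost half of the density.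
-/

namespace Pool.Agent.Results.MP_8daebb_an.HalfDensityInterface

open MeasureTheory Set Filter Topology Metric Pool.Agent.TH337.VF
open scoped ENNReal

/-- The weight measure `μ` together with the field of tangent planes `T` is a stationary
`m`-dimensional varifold in `U`: `μ` is finite on compact subsets of `U`, the plane field is
measurable, `T x` is an `m`-plane for `μ`-almost every `x` in `U`, and the first variation
vanishes. -/
structure IsStationaryVarifold {N : ℕ} (m : ℕ) (U : Set (EuclideanSpace ℝ (Fin N)))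
    (μ : Measure (EuclideanSpace ℝ (Fin N)))
    (T : EuclideanSpace ℝ (Fin N) → Submodule ℝ (EuclideanSpace ℝ (Fin N))) : Prop where
  finite_compact : ∀ K ⊆ U, IsCompact K → μ K < ⊤
  measurable_plane : Measurable fun x => (T x).starProjection
  dim_plane : ∀ᵐ x ∂(μ.restrict U), Module.finrank ℝ (T x) = m
  stationary : ∀ X : EuclideanSpace ℝ (Fin N) → EuclideanSpace ℝ (Fin N),
    ContDiff ℝ 1 X → HasCompactSupport X → tsupport X ⊆ U →
    ∫ x, LinearMap.trace ℝ (EuclideanSpace ℝ (Fin N))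
      ((T x).starProjection ∘L fderiv ℝ X x :
        EuclideanSpace ℝ (Fin N) →L[ℝ] EuclideanSpace ℝ (Fin N)) ∂μ = 0

/-- The interface of `{Θ = Q}` and `{Θ ≠ Q}`: the points `z` of `U` such that both sets have
positive `μ`-measure in every ball about `z`. -/
def interface {N : ℕ} (m : ℕ) (U : Set (EuclideanSpace ℝ (Fin N)))
    (μ : Measure (EuclideanSpace ℝ (Fin N))) (Q : ℝ≥0∞) : Set (EuclideanSpace ℝ (Fin N)) :=
  {z | z ∈ U ∧ ∀ r : ℝ, 0 < r →
    μ (ball z r ∩ {x | density m μ x = Q}) ≠ 0 ∧ μ (ball z r ∩ {x | density m μ x ≠ Q}) ≠ 0}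

/-- `z` is a `δ`-flat point of multiplicity at most `Q + δ`: at arbitrarily small scales `r` the
mass ratio of `ball z r` is at most `Q + δ`, and there is an `m`-plane `L` such that the part of
the support of `μ` in `ball z r` has distance at most `δ * r` from `z + L` and the tangent planes
are close to `L` in the mean: the integral over `ball z r` of the square of the distance of `e` from
`T x` is at most `δ * r ^ m`, for every vector `e` of `L` of norm at most one. -/
def IsNearlyFlat {N : ℕ} (m : ℕ) (μ : Measure (EuclideanSpace ℝ (Fin N)))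
    (T : EuclideanSpace ℝ (Fin N) → Submodule ℝ (EuclideanSpace ℝ (Fin N))) (Q : ℝ≥0∞) (δ : ℝ)
    (z : EuclideanSpace ℝ (Fin N)) : Prop :=
  ∀ r₀ : ℝ, 0 < r₀ → ∃ r : ℝ, 0 < r ∧ r < r₀ ∧
    μ (ball z r) ≤ (Q + ENNReal.ofReal δ) *
      (volume (ball (0 : EuclideanSpace ℝ (Fin m)) 1) * ENNReal.ofReal r ^ m) ∧
    ∃ L : Submodule ℝ (EuclideanSpace ℝ (Fin N)), Module.finrank ℝ L = m ∧
      (∀ x ∈ μ.support, x ∈ ball z r → ‖(x - z) - L.starProjection (x - z)‖ ≤ δ * r) ∧
      ∀ e ∈ L, ‖e‖ ≤ 1 → ∫ x in ball z r, ‖e - (T x).starProjection e‖ ^ 2 ∂μ ≤ δ * r ^ m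

theorem result {N m : ℕ} (hm : 1 ≤ m) {U : Set (EuclideanSpace ℝ (Fin N))} (hU : IsOpen U)
    {μ : Measure (EuclideanSpace ℝ (Fin N))}
    {T : EuclideanSpace ℝ (Fin N) → Submodule ℝ (EuclideanSpace ℝ (Fin N))}
    (hV : IsStationaryVarifold m U μ T) (h1 : ∀ᵐ x ∂(μ.restrict U), 1 ≤ density m μ x)
    {x₀ : EuclideanSpace ℝ (Fin N)} (hx₀ : x₀ ∈ U)
    (hpos : ∀ r : ℝ, 0 < r → μ (ball x₀ r ∩ {x | density m μ x = density m μ x₀}) ≠ 0)
    {θ δ : ℝ} (hθ : θ < 1 / 2) (hδ : 0 < δ)
    (C : ℕ → Set (EuclideanSpace ℝ (Fin N))) (hC : ∀ n, IsClosed (C n))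
    (hC0 : ∀ n, μH[(m : ℝ) - 1] (C n) < ⊤)
    (hI : ∀ z ∈ interface m U μ (density m μ x₀), z ∉ ⋃ n, C n →
      IsNearlyFlat m μ T (density m μ x₀) δ z →
      upperDens m μ {x | density m μ x ≠ density m μ x₀} z ≤
        ENNReal.ofReal θ * density m μ x₀ ∨
      upperDens m μ {x | density m μ x = density m μ x₀} z ≤
        ENNReal.ofReal θ * density m μ x₀)
    {Z : Set (EuclideanSpace ℝ (Fin N))} (hZ : μH[(m : ℝ) - 1] Z = 0)
    (hI' : ∀ z ∈ interface m U μ (density m μ x₀), z ∈ ⋃ n, C n → z ∉ Z →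
      upperDens m μ {x | density m μ x ≠ density m μ x₀} z = 0 ∨
      upperDens m μ {x | density m μ x = density m μ x₀} z = 0) :
    ∃ r : ℝ, 0 < r ∧ ∀ᵐ x ∂(μ.restrict (ball x₀ r)), density m μ x = density m μ x₀ := by
  have hS : Stat m U μ (Pool.Agent.Helper83K9.HD.pr T) := by
    refine ⟨hV.finite_compact, hV.measurable_plane, ?_, ?_, ?_⟩
    · intro x
      exact Submodule.starProjection_norm_le _
    · filter_upwards [hV.dim_plane] with x hx
      show trc (T x).starProjection = m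
      rw [trc_starProjection, hx]
    · intro X hX hc hXU
      exact hV.stationary X hX hc hXU
  have hcast : (m : ℝ) - 1 = ((m - 1 : ℕ) : ℝ) := by
    rw [Nat.cast_sub hm, Nat.cast_one]
  have hifc : ∀ z ∈ ifc U μ {x | density m μ x = density m μ x₀},
      z ∈ interface m U μ (density m μ x₀) := by
    intro z hz
    refine ⟨hz.1, ?_⟩
    intro r hr
    exact ⟨fun h => hz.2 (Or.inl ⟨r, hr, h⟩), fun h => hz.2 (Or.inr ⟨r, hr, h⟩)⟩
  exact Pool.Agent.Helper83K9.HD.main_half Pool.Agent.Helper83K9.HD.lc Pool.Agent.Helper83K9.HD.sh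
    Pool.Agent.Helper83K9.HD.av1 Pool.Agent.Helper83K9.HD.hb
    (Pool.Agent.Helper83K9.HD.pl (Pool.Agent.Helper83K9.HD.mr Pool.Agent.Helper83K9.HD.lc)
      Pool.Agent.Helper83K9.HD.av2) hm hU hS hV.dim_plane h1 hx₀ hpos hθ hδ C hC
    (fun n => by rw [← hcast]; exact (hC0 n).ne)
    (fun z hz hzC hzf => hI z (hifc z hz) hzC hzf) (by rw [← hcast]; exact hZ)
    (fun z hz hzC hzZ => hI' z (hifc z hz) hzC hzZ)

end Pool.Agent.Results.MP_8daebb_an.HalfDensityInterface
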